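import Mathlib

namespace Pool.Agent.Results.MP_f7162b_al.HopfianNotCofInj

/-- integer approximations of `p`-adic integers -/
lemma approx (p : ℕ) [Fact p.Prime] (z : ℚ_[p]) (hz : ‖z‖ ≤ 1) (N : ℕ) :
    ∃ a : ℤ, ‖z - a‖ ≤ (p : ℝ) ^ (-(N : ℤ)) := by
  obtain ⟨x, hx⟩ : ∃ x : ℤ_[p], (x : ℚ_[p]) = z := ⟨⟨z, hz⟩, rfl⟩
  refine ⟨(PadicInt.appr x N : ℤ), ?_⟩
  have h := PadicInt.appr_spec N x
  rw [← PadicInt.norm_le_pow_iff_mem_span_pow] at h
  have e : z - ((PadicInt.appr x N : ℤ) : ℚ_[p]) = ((x - (PadicInt.appr x N : ℤ_[p]) : ℤ_[p]) : ℚ_[p]) := by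
    push_cast
    rw [hx]
  rw [e]
  exact h

lemma transfer (p : ℕ) [Fact p.Prime] {G : Type} [AddCommGroup G] {S : Type}
    (χ : S → (G →+ ℚ_[p])) (hA : ∀ s w, ‖χ s w‖ ≤ 1)
    (hB : ∀ (N : ℕ) (w : G), (∀ s, ‖χ s w‖ ≤ (p : ℝ) ^ (-(N : ℤ))) → ∃ w' : G, w = (p ^ N : ℕ) • w')
    (φ : G →+ G) {ι : Type} (T : Finset ι) (z : ι → ℚ_[p]) (hz : ∀ k ∈ T, ‖z k‖ ≤ 1) (w : ι → G)
    (h : ∀ s, ∑ k ∈ T, z k * χ s (w k) = 0) (s : S) : ∑ k ∈ T, z k * χ s (φ (w k)) = 0 := by
  have key : ∀ N : ℕ, ‖∑ k ∈ T, z k * χ s (φ (w k))‖ ≤ (p : ℝ) ^ (-(N : ℤ)) := by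
    intro N
    have hpos : (0 : ℝ) ≤ (p : ℝ) ^ (-(N : ℤ)) := by positivity
    have ha : ∀ k, ∃ a : ℤ, k ∈ T → ‖z k - a‖ ≤ (p : ℝ) ^ (-(N : ℤ)) := by
      intro k
      by_cases hk : k ∈ T
      · obtain ⟨a, ha⟩ := approx p (z k) (hz k hk) N
        exact ⟨a, fun _ => ha⟩
      · exact ⟨0, fun h => absurd h hk⟩
    choose a ha using ha
    have hbd : ∀ (t : S) (f : ι → G), ‖∑ k ∈ T, (z k - a k) * χ t (f k)‖ ≤ (p : ℝ) ^ (-(N : ℤ)) := by
      intro t f
      apply IsUltrametricDist.norm_sum_le_of_forall_le_of_nonneg hpos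
      intro k hk
      rw [norm_mul]
      calc ‖z k - a k‖ * ‖χ t (f k)‖ ≤ (p : ℝ) ^ (-(N : ℤ)) * 1 := by
            apply mul_le_mul (ha k hk) (hA t (f k)) (norm_nonneg _) hpos
        _ = _ := mul_one _
    have hlin : ∀ (t : S) (f : ι → G), χ t (∑ k ∈ T, a k • f k) =
        (∑ k ∈ T, z k * χ t (f k)) - ∑ k ∈ T, (z k - a k) * χ t (f k) := by
      intro t f
      rw [map_sum, ← Finset.sum_sub_distrib]
      apply Finset.sum_congr rfl
      intro k hk
      rw [map_zsmul, zsmul_eq_mul]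
      ring
    obtain ⟨w', hw'⟩ := hB N (∑ k ∈ T, a k • w k) (by
      intro t
      rw [hlin t w, h t, zero_sub, norm_neg]
      exact hbd t w)
    have h1 : φ (∑ k ∈ T, a k • w k) = ∑ k ∈ T, a k • φ (w k) := by
      rw [map_sum]
      apply Finset.sum_congr rfl
      intro k hk
      rw [map_zsmul]
    have h2 : χ s (∑ k ∈ T, a k • φ (w k)) = (p : ℚ_[p]) ^ N * χ s (φ w') := by
      rw [← h1, hw', map_nsmul, map_nsmul, nsmul_eq_mul]
      push_cast
      ring
    have h3 := hlin s (fun k => φ (w k))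
    rw [h2] at h3
    have h4 : ∑ k ∈ T, z k * χ s (φ (w k)) = (p : ℚ_[p]) ^ N * χ s (φ w') +
        ∑ k ∈ T, (z k - a k) * χ s (φ (w k)) := by
      rw [h3]
      ring
    rw [h4]
    apply (IsUltrametricDist.norm_add_le_max _ _).trans
    apply max_le
    · rw [norm_mul, Padic.norm_p_pow]
      calc (p : ℝ) ^ (-(N : ℤ)) * ‖χ s (φ w')‖ ≤ (p : ℝ) ^ (-(N : ℤ)) * 1 := by
            apply mul_le_mul_of_nonneg_left (hA s _) hpos
        _ = _ := mul_one _
    · exact hbd s _
  have hlim : Filter.Tendsto (fun N : ℕ => (p : ℝ) ^ (-(N : ℤ))) Filter.atTop (nhds 0) := by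
    have e : (fun N : ℕ => (p : ℝ) ^ (-(N : ℤ))) = fun N : ℕ => ((p : ℝ)⁻¹) ^ N := by
      funext N
      rw [zpow_neg, zpow_natCast, inv_pow]
    rw [e]
    apply tendsto_pow_atTop_nhds_zero_of_lt_one
    · positivity
    · apply inv_lt_one_of_one_lt₀
      exact_mod_cast (Fact.out : p.Prime).one_lt
  have h0 : ‖∑ k ∈ T, z k * χ s (φ (w k))‖ ≤ 0 := ge_of_tendsto' hlim key
  exact norm_le_zero_iff.mp h0

/-- existence of transcendental unit -/
lemma exists_transc (p : ℕ) [Fact p.Prime] : ∃ x : ℚ_[p], ‖x‖ = 1 ∧ Transcendental ℚ x := by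
  by_contra hcon
  push Not at hcon
  have hsub : {x : ℚ_[p] | ‖x‖ = 1} ⊆ {x | IsAlgebraic ℚ x} := by
    intro x hx
    have := hcon x hx
    rw [Transcendental, not_not] at this
    exact this
  have hc : ({x : ℚ_[p] | ‖x‖ = 1}).Countable := (Algebraic.countable ℚ ℚ_[p]).mono hsub
  have hopen : IsOpen {x : ℚ_[p] | ‖x‖ = 1} := by
    have : {x : ℚ_[p] | ‖x‖ = 1} = Metric.sphere 0 1 := by
      ext x
      simp
    rw [this]
    exact IsUltrametricDist.isOpen_sphere _ one_ne_zero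
  have h2 := continuum_le_cardinal_of_isOpen ℚ_[p] hopen ⟨1, by simp⟩
  have h3 : Cardinal.mk {x : ℚ_[p] | ‖x‖ = 1} ≤ Cardinal.aleph0 := by
    rw [Cardinal.mk_le_aleph0_iff]
    exact hc
  exact absurd (h2.trans h3) (not_le.mpr Cardinal.aleph0_lt_continuum)

abbrev V : Type := (ℕ →₀ ℚ) × (ℤ →₀ ℚ)

/-- the coefficients -/
noncomputable def al (mu : ℚ_[3]) (k : ℤ) : ℚ_[3] := if 0 ≤ k then mu ^ (k.toNat + 1) else 0

/-- the 2-adic functional -/
noncomputable def Lam (lam : ℚ_[2]) : V →ₗ[ℚ] ℚ_[2] :=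
  (Finsupp.linearCombination ℚ (fun n : ℤ => lam ^ (-n))).comp (LinearMap.snd ℚ _ _)

/-- the 3-adic functionals -/
noncomputable def rho (mu : ℚ_[3]) (i : ℕ) : V →ₗ[ℚ] ℚ_[3] :=
  (Algebra.linearMap ℚ ℚ_[3]).comp ((Finsupp.lapply i).comp (LinearMap.fst ℚ _ _)) -
    (Finsupp.linearCombination ℚ (fun n : ℤ => al mu (n - i))).comp (LinearMap.snd ℚ _ _)

/-- the scaling -/
noncomputable def sc (i : ℕ) : ℚ_[3] := if i = 0 then 3 else 1

/-- the group -/
noncomputable def GG (lam : ℚ_[2]) (mu : ℚ_[3]) : AddSubgroup V where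
  carrier := {w | ‖Lam lam w‖ ≤ 1 ∧ ∀ i, ‖sc i * rho mu i w‖ ≤ 1}
  zero_mem' := by
    constructor
    · rw [map_zero, norm_zero]
      exact zero_le_one
    · intro i
      rw [map_zero, mul_zero, norm_zero]
      exact zero_le_one
  add_mem' := by
    intro a b ha hb
    constructor
    · rw [map_add]
      exact (IsUltrametricDist.norm_add_le_max _ _).trans (max_le ha.1 hb.1)
    · intro i
      rw [map_add, mul_add]
      exact (IsUltrametricDist.norm_add_le_max _ _).trans (max_le (ha.2 i) (hb.2 i))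
  neg_mem' := by
    intro a ha
    constructor
    · rw [map_neg, norm_neg]
      exact ha.1
    · intro i
      rw [map_neg, mul_neg, norm_neg]
      exact ha.2 i

lemma mem_GG (lam : ℚ_[2]) (mu : ℚ_[3]) (w : V) :
    w ∈ GG lam mu ↔ ‖Lam lam w‖ ≤ 1 ∧ ∀ i, ‖sc i * rho mu i w‖ ≤ 1 := Iff.rfl

lemma Lam_e (lam : ℚ_[2]) (c : ℕ →₀ ℚ) : Lam lam (c, 0) = 0 := by
  rw [Lam, LinearMap.comp_apply, LinearMap.snd_apply, map_zero]

lemma Lam_v (lam : ℚ_[2]) (n : ℤ) : Lam lam (0, Finsupp.single n 1) = lam ^ (-n) := by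
  rw [Lam, LinearMap.comp_apply, LinearMap.snd_apply, Finsupp.linearCombination_single, one_smul]

lemma rho_apply (mu : ℚ_[3]) (i : ℕ) (w : V) : rho mu i w = ((w.1 i : ℚ) : ℚ_[3]) -
    Finsupp.linearCombination ℚ (fun n : ℤ => al mu (n - i)) w.2 := rfl

lemma rho_e (mu : ℚ_[3]) (i : ℕ) (c : ℕ →₀ ℚ) : rho mu i (c, 0) = ((c i : ℚ) : ℚ_[3]) := by
  rw [rho_apply, map_zero, sub_zero]

lemma rho_v (mu : ℚ_[3]) (i : ℕ) (n : ℤ) :
    rho mu i (0, Finsupp.single n 1) = - al mu (n - i) := by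
  rw [rho_apply, Finsupp.linearCombination_single, one_smul]
  simp



lemma Lam_inj (lam : ℚ_[2]) (hl : lam ≠ 0) (ht : Transcendental ℚ lam) (d : ℤ →₀ ℚ)
    (h : Finsupp.linearCombination ℚ (fun n : ℤ => lam ^ (-n)) d = 0) : d = 0 := by
  obtain ⟨M, hM⟩ := d.support.bddAbove
  have hM' : ∀ n ∈ d.support, n ≤ M := fun n hn => hM hn
  obtain ⟨P, hP⟩ : ∃ P : Polynomial ℚ, P = ∑ n ∈ d.support,
    Polynomial.C (d n) * Polynomial.X ^ (M - n).toNat := ⟨_, rfl⟩
  have h1 : Polynomial.aeval lam P = 0 := by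
    have e : Polynomial.aeval lam P =
        lam ^ M * Finsupp.linearCombination ℚ (fun n : ℤ => lam ^ (-n)) d := by
      rw [hP, map_sum, Finsupp.linearCombination_apply, Finsupp.sum, Finset.mul_sum]
      apply Finset.sum_congr rfl
      intro n hn
      have h2 : lam ^ (M - n).toNat = lam ^ (M - n) := by
        rw [← zpow_natCast, Int.toNat_of_nonneg (by have := hM' n hn; omega)]
      rw [map_mul, Polynomial.aeval_C, map_pow, Polynomial.aeval_X, h2, Rat.smul_def,
        sub_eq_add_neg, zpow_add₀ hl]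
      simp only [eq_ratCast]
      ring
    rw [e, h, mul_zero]
  have h2 : P = 0 := (transcendental_iff.mp ht) P h1
  ext n
  by_cases hn : n ∈ d.support
  · have h3 : P.coeff (M - n).toNat = d n := by
      rw [hP, Polynomial.finsetSum_coeff, Finset.sum_eq_single n]
      · rw [Polynomial.coeff_C_mul, Polynomial.coeff_X_pow, if_pos rfl, mul_one]
      · intro m hm hmn
        rw [Polynomial.coeff_C_mul, Polynomial.coeff_X_pow, if_neg, mul_zero]
        have := hM' n hn
        have := hM' m hm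
        omega
      · intro h
        exact absurd hn h
    rw [← h3, h2]
    simp
  · rw [Finsupp.notMem_support_iff.mp hn]
    rfl

lemma mu_coeff (mu : ℚ_[3]) (ht : Transcendental ℚ mu) (b : ℚ) (d : ℤ →₀ ℚ)
    (h : (b : ℚ_[3]) + Finsupp.linearCombination ℚ (fun n : ℤ => al mu n) d = 0) : d 0 = 0 := by
  obtain ⟨P, hP⟩ : ∃ P : Polynomial ℚ, P = Polynomial.C b + ∑ n ∈ d.support,
    (if 0 ≤ n then Polynomial.C (d n) * Polynomial.X ^ (n.toNat + 1) else 0) := ⟨_, rfl⟩
  have h1 : Polynomial.aeval mu P = 0 := by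
    rw [← h, hP, map_add, Polynomial.aeval_C, map_sum, Finsupp.linearCombination_apply, Finsupp.sum]
    congr 1
    apply Finset.sum_congr rfl
    intro n hn
    rw [al]
    split_ifs with h0
    · rw [map_mul, Polynomial.aeval_C, map_pow, Polynomial.aeval_X, Rat.smul_def]
      simp only [eq_ratCast]
    · rw [map_zero, smul_zero]
  have h2 : P = 0 := (transcendental_iff.mp ht) P h1
  have h3 : P.coeff 1 = d 0 := by
    rw [hP, Polynomial.coeff_add, Polynomial.coeff_C, if_neg one_ne_zero, zero_add,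
      Polynomial.finsetSum_coeff]
    by_cases h0 : (0 : ℤ) ∈ d.support
    · rw [Finset.sum_eq_single 0]
      · rw [if_pos le_rfl, Polynomial.coeff_C_mul, Polynomial.coeff_X_pow]
        simp
      · intro m hm hmn
        split_ifs with h4
        · rw [Polynomial.coeff_C_mul, Polynomial.coeff_X_pow, if_neg, mul_zero]
          omega
        · rfl
      · intro h
        exact absurd h0 h
    · rw [Finsupp.notMem_support_iff.mp h0]
      apply Finset.sum_eq_zero
      intro m hm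
      split_ifs with h4
      · rw [Polynomial.coeff_C_mul, Polynomial.coeff_X_pow, if_neg, mul_zero]
        have : m ≠ 0 := by
          rintro rfl
          exact h0 hm
        omega
      · rfl
  rw [← h3, h2]
  simp

lemma sc_ne (i : ℕ) : sc i ≠ 0 := by
  rw [sc]
  split_ifs
  · norm_num
  · exact one_ne_zero

lemma norm_three : ‖(3 : ℚ_[3])‖ = 3⁻¹ := by
  have := Padic.norm_p (p := 3)
  exact_mod_cast this

lemma norm_sc (i : ℕ) : ‖sc i‖ ≤ 1 := by
  rw [sc]
  split_ifs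
  · rw [norm_three]
    norm_num
  · rw [norm_one]

section Group

variable {lam : ℚ_[2]} {mu : ℚ_[3]}

lemma norm_al (hm : ‖mu‖ = 1) (k : ℤ) : ‖al mu k‖ ≤ 1 := by
  rw [al]
  split_ifs
  · rw [norm_pow, hm, one_pow]
  · rw [norm_zero]
    exact zero_le_one

lemma ratcast_norm_two_pow (N : ℕ) : ‖(((2 ^ N : ℚ)⁻¹ : ℚ) : ℚ_[3])‖ = 1 := by
  push_cast
  rw [norm_inv, norm_pow]
  have : ‖(2 : ℚ_[3])‖ = 1 := by
    have := (Padic.norm_natCast_eq_one_iff (p := 3) (n := 2)).mpr (by norm_num)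
    exact_mod_cast this
  rw [this, one_pow, inv_one]

lemma ratcast_norm_three_pow (N : ℕ) : ‖(((3 ^ N : ℚ)⁻¹ : ℚ) : ℚ_[2])‖ = 1 := by
  push_cast
  rw [norm_inv, norm_pow]
  have : ‖(3 : ℚ_[2])‖ = 1 := by
    have := (Padic.norm_natCast_eq_one_iff (p := 2) (n := 3)).mpr (by norm_num)
    exact_mod_cast this
  rw [this, one_pow, inv_one]

lemma smul_mem_two (N : ℕ) (w : V) (hw : w ∈ GG lam mu) (h : ‖Lam lam w‖ ≤ (2 : ℝ) ^ (-(N : ℤ))) :
    ((2 ^ N : ℚ)⁻¹ : ℚ) • w ∈ GG lam mu := by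
  rw [mem_GG] at hw ⊢
  constructor
  · rw [map_smul, Rat.smul_def, norm_mul]
    have : ‖(((2 ^ N : ℚ)⁻¹ : ℚ) : ℚ_[2])‖ = (2 : ℝ) ^ N := by
      push_cast
      rw [norm_inv, norm_pow]
      have : ‖(2 : ℚ_[2])‖ = 2⁻¹ := by
        have := Padic.norm_p (p := 2)
        exact_mod_cast this
      rw [this, inv_pow, inv_inv]
    rw [this]
    calc (2 : ℝ) ^ N * ‖Lam lam w‖ ≤ (2 : ℝ) ^ N * (2 : ℝ) ^ (-(N : ℤ)) := by
          apply mul_le_mul_of_nonneg_left h
          positivity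
      _ = 1 := by
          rw [zpow_neg, zpow_natCast]
          apply mul_inv_cancel₀
          positivity
  · intro i
    rw [map_smul, Rat.smul_def, mul_left_comm, norm_mul, ratcast_norm_two_pow, one_mul]
    exact hw.2 i

lemma smul_mem_three (N : ℕ) (w : V) (hw : w ∈ GG lam mu)
    (h : ∀ i, ‖sc i * rho mu i w‖ ≤ (3 : ℝ) ^ (-(N : ℤ))) :
    ((3 ^ N : ℚ)⁻¹ : ℚ) • w ∈ GG lam mu := by
  rw [mem_GG] at hw ⊢
  constructor
  · rw [map_smul, Rat.smul_def, norm_mul, ratcast_norm_three_pow, one_mul]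
    exact hw.1
  · intro i
    rw [map_smul, Rat.smul_def, mul_left_comm, norm_mul]
    have : ‖(((3 ^ N : ℚ)⁻¹ : ℚ) : ℚ_[3])‖ = (3 : ℝ) ^ N := by
      push_cast
      rw [norm_inv, norm_pow, norm_three, inv_pow, inv_inv]
    rw [this]
    calc (3 : ℝ) ^ N * ‖sc i * rho mu i w‖ ≤ (3 : ℝ) ^ N * (3 : ℝ) ^ (-(N : ℤ)) := by
          apply mul_le_mul_of_nonneg_left (h i)
          positivity
      _ = 1 := by
          rw [zpow_neg, zpow_natCast]
          apply mul_inv_cancel₀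
          positivity

variable (lam mu) in
/-- the functionals on the group -/
noncomputable def chi2 (_ : Unit) : GG lam mu →+ ℚ_[2] :=
  (Lam lam).toAddMonoidHom.comp (GG lam mu).subtype

variable (lam mu) in
/-- the functionals on the group -/
noncomputable def chi3 (s : ℕ) : GG lam mu →+ ℚ_[3] :=
  (AddMonoidHom.mulLeft (sc s)).comp ((rho mu s).toAddMonoidHom.comp (GG lam mu).subtype)

lemma chi2_apply (w : GG lam mu) : chi2 lam mu () w = Lam lam w.1 := rfl

lemma chi3_apply (s : ℕ) (w : GG lam mu) : chi3 lam mu s w = sc s * rho mu s w.1 := rfl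

lemma transfer2 (φ : GG lam mu →+ GG lam mu) {ι : Type} (T : Finset ι) (z : ι → ℚ_[2])
    (hz : ∀ k ∈ T, ‖z k‖ ≤ 1) (w : ι → GG lam mu)
    (h : ∑ k ∈ T, z k * Lam lam (w k).1 = 0) : ∑ k ∈ T, z k * Lam lam (φ (w k)).1 = 0 := by
  apply transfer 2 (chi2 lam mu) (fun s w => w.2.1) _ φ T z hz w (fun s => h) ()
  intro N w hw
  refine ⟨⟨((2 ^ N : ℚ)⁻¹ : ℚ) • w.1, smul_mem_two N w.1 w.2 ?_⟩, ?_⟩
  · have := hw ()
    exact_mod_cast this
  · apply Subtype.ext
    show w.1 = (2 ^ N : ℕ) • (((2 ^ N : ℚ)⁻¹ : ℚ) • w.1)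
    rw [← Nat.cast_smul_eq_nsmul ℚ, smul_smul]
    push_cast
    rw [mul_inv_cancel₀ (by positivity), one_smul]

lemma transfer3 (φ : GG lam mu →+ GG lam mu) {ι : Type} (T : Finset ι) (z : ι → ℚ_[3])
    (hz : ∀ k ∈ T, ‖z k‖ ≤ 1) (w : ι → GG lam mu)
    (h : ∀ s, ∑ k ∈ T, z k * rho mu s (w k).1 = 0) (s : ℕ) :
    ∑ k ∈ T, z k * rho mu s (φ (w k)).1 = 0 := by
  have key := transfer 3 (chi3 lam mu) (fun s w => w.2.2 s) (by
    intro N w hw
    refine ⟨⟨((3 ^ N : ℚ)⁻¹ : ℚ) • w.1, smul_mem_three N w.1 w.2 ?_⟩, ?_⟩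
    · intro i
      have := hw i
      exact_mod_cast this
    · apply Subtype.ext
      show w.1 = (3 ^ N : ℕ) • (((3 ^ N : ℚ)⁻¹ : ℚ) • w.1)
      rw [← Nat.cast_smul_eq_nsmul ℚ, smul_smul]
      push_cast
      rw [mul_inv_cancel₀ (by positivity), one_smul]) φ T z hz w (by
    intro s
    have : ∑ k ∈ T, z k * chi3 lam mu s (w k) = sc s * ∑ k ∈ T, z k * rho mu s (w k).1 := by
      rw [Finset.mul_sum]
      apply Finset.sum_congr rfl
      intro k _
      rw [chi3_apply]
      ring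
    rw [this, h s, mul_zero]) s
  have : ∑ k ∈ T, z k * chi3 lam mu s (φ (w k)) = sc s * ∑ k ∈ T, z k * rho mu s (φ (w k)).1 := by
    rw [Finset.mul_sum]
    apply Finset.sum_congr rfl
    intro k _
    rw [chi3_apply]
    ring
  rw [this] at key
  exact (mul_eq_zero.mp key).resolve_left (sc_ne s)


lemma e_mem (i : ℕ) : ((Finsupp.single i 1, 0) : V) ∈ GG lam mu := by
  rw [mem_GG]
  constructor
  · rw [Lam_e, norm_zero]
    exact zero_le_one
  · intro j
    rw [rho_e, norm_mul]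
    have : ‖(((Finsupp.single i (1 : ℚ)) j : ℚ) : ℚ_[3])‖ ≤ 1 := by
      rw [Finsupp.single_apply]
      split_ifs
      · simp
      · simp
    exact mul_le_one₀ (norm_sc j) (norm_nonneg _) this

lemma v_mem (hl : ‖lam‖ = 1) (hm : ‖mu‖ = 1) (n : ℤ) :
    ((0, Finsupp.single n 1) : V) ∈ GG lam mu := by
  rw [mem_GG]
  constructor
  · rw [Lam_v, norm_zpow, hl, one_zpow]
  · intro j
    rw [rho_v, norm_mul, norm_neg]
    exact mul_le_one₀ (norm_sc j) (norm_nonneg _) (norm_al hm _)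

lemma third_mem : ((Finsupp.single 0 (1 / 3), 0) : V) ∈ GG lam mu := by
  rw [mem_GG]
  constructor
  · rw [Lam_e, norm_zero]
    exact zero_le_one
  · intro j
    rw [rho_e]
    by_cases hj : j = 0
    · subst hj
      rw [Finsupp.single_eq_same, sc, if_pos rfl]
      push_cast
      norm_num
    · rw [Finsupp.single_apply, if_neg (Ne.symm hj), Rat.cast_zero, mul_zero, norm_zero]
      exact zero_le_one

/-- homomorphisms are determined on the basis -/
lemma ext_hom (L R : GG lam mu →+ ℚ_[3]) (E : ℕ → GG lam mu)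
    (hE : ∀ i, (E i).1 = (Finsupp.single i 1, 0)) (W : ℤ → GG lam mu)
    (hW : ∀ n, (W n).1 = (0, Finsupp.single n 1)) (h1 : ∀ i, L (E i) = R (E i))
    (h2 : ∀ n, L (W n) = R (W n)) (w : GG lam mu) : L w = R w := by
  have hadd : ∀ a b : V, (∃ N : ℕ, 0 < N ∧ ∃ x : GG lam mu, x.1 = N • a ∧ L x = R x) →
      (∃ N : ℕ, 0 < N ∧ ∃ x : GG lam mu, x.1 = N • b ∧ L x = R x) →
      (∃ N : ℕ, 0 < N ∧ ∃ x : GG lam mu, x.1 = N • (a + b) ∧ L x = R x) := by
    rintro a b ⟨N, hN, x, hx, hLx⟩ ⟨M, hM, y, hy, hLy⟩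
    refine ⟨N * M, Nat.mul_pos hN hM, M • x + N • y, ?_, ?_⟩
    · rw [AddSubgroup.coe_add, AddSubgroup.coe_nsmul, AddSubgroup.coe_nsmul, hx, hy, smul_smul,
        smul_smul, smul_add, mul_comm M N]
    · rw [map_add, map_add, map_nsmul, map_nsmul, map_nsmul, map_nsmul, hLx, hLy]
  have hc : ∀ c : ℕ →₀ ℚ, ∃ N : ℕ, 0 < N ∧ ∃ x : GG lam mu, x.1 = N • ((c, 0) : V) ∧ L x = R x := by
    intro c
    induction c using Finsupp.induction_linear with
    | zero =>
      refine ⟨1, one_pos, 0, ?_, ?_⟩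
      · rw [one_smul]
        rfl
      · rw [map_zero, map_zero]
    | add f g hf hg =>
      have : ((f + g, 0) : V) = (f, 0) + (g, 0) := by
        rw [Prod.mk_add_mk, add_zero]
      rw [this]
      exact hadd _ _ hf hg
    | single i q =>
      refine ⟨q.den, q.den_pos, q.num • E i, ?_, ?_⟩
      · rw [AddSubgroup.coe_zsmul, hE i, Prod.smul_mk, Prod.smul_mk, smul_zero, smul_zero]
        congr 1
        rw [Finsupp.smul_single, Finsupp.smul_single]
        congr 1
        rw [zsmul_eq_mul, nsmul_eq_mul, mul_one, Rat.den_mul_eq_num]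
      · rw [map_zsmul, map_zsmul, h1]
  have hd : ∀ d : ℤ →₀ ℚ, ∃ N : ℕ, 0 < N ∧ ∃ x : GG lam mu, x.1 = N • ((0, d) : V) ∧ L x = R x := by
    intro d
    induction d using Finsupp.induction_linear with
    | zero =>
      refine ⟨1, one_pos, 0, ?_, ?_⟩
      · rw [one_smul]
        rfl
      · rw [map_zero, map_zero]
    | add f g hf hg =>
      have : ((0, f + g) : V) = (0, f) + (0, g) := by
        rw [Prod.mk_add_mk, add_zero]
      rw [this]
      exact hadd _ _ hf hg
    | single i q =>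
      refine ⟨q.den, q.den_pos, q.num • W i, ?_, ?_⟩
      · rw [AddSubgroup.coe_zsmul, hW i, Prod.smul_mk, Prod.smul_mk, smul_zero, smul_zero]
        congr 1
        rw [Finsupp.smul_single, Finsupp.smul_single]
        congr 1
        rw [zsmul_eq_mul, nsmul_eq_mul, mul_one, Rat.den_mul_eq_num]
      · rw [map_zsmul, map_zsmul, h2]
  obtain ⟨N, hN, x, hx, hLx⟩ := hadd _ _ (hc w.1.1) (hd w.1.2)
  have hw : ((w.1.1, 0) : V) + (0, w.1.2) = w.1 := by
    rw [Prod.mk_add_mk, add_zero, zero_add]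
  rw [hw] at hx
  have hx' : x = N • w := Subtype.ext hx
  rw [hx', map_nsmul, map_nsmul, nsmul_eq_mul, nsmul_eq_mul] at hLx
  exact mul_left_cancel₀ (by exact_mod_cast hN.ne') hLx

lemma exists_F (hl : ‖lam‖ = 1) (hm : ‖mu‖ = 1) (tl : Transcendental ℚ lam)
    (tm : Transcendental ℚ mu) (φ : GG lam mu →+ GG lam mu) :
    ∃ (K : ℕ) (F : ℕ → ℚ), (∀ k, K ≤ k → F k = 0) ∧ (∀ k, ‖(F k : ℚ_[3])‖ ≤ 1) ∧
      ∀ (w : GG lam mu) (j : ℕ),
        rho mu j (φ w).1 = ∑ k ∈ Finset.range K, (F k : ℚ_[3]) * rho mu (j + k) w.1 := by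
  have hl0 : lam ≠ 0 := by
    rintro rfl
    rw [norm_zero] at hl
    exact zero_ne_one hl
  obtain ⟨E, hE⟩ : ∃ E : ℕ → GG lam mu, ∀ i, (E i).1 = (Finsupp.single i 1, 0) :=
    ⟨fun i => ⟨_, e_mem i⟩, fun i => rfl⟩
  obtain ⟨W, hW⟩ : ∃ W : ℤ → GG lam mu, ∀ n, (W n).1 = (0, Finsupp.single n 1) :=
    ⟨fun n => ⟨_, v_mem hl hm n⟩, fun i => rfl⟩
  have hcomm : ∀ w w' : GG lam mu, Lam lam w'.1 * Lam lam (φ w).1 = Lam lam w.1 * Lam lam (φ w').1 := by
    intro w w'
    have := transfer2 φ Finset.univ ![Lam lam w'.1, - Lam lam w.1] (by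
      intro k _
      fin_cases k
      · exact w'.2.1
      · show ‖- Lam lam w.1‖ ≤ 1
        rw [norm_neg]
        exact w.2.1) ![w, w'] (by
      rw [Fin.sum_univ_two]
      show Lam lam w'.1 * Lam lam w.1 + (- Lam lam w.1) * Lam lam w'.1 = 0
      ring)
    rw [Fin.sum_univ_two] at this
    have h2 : Lam lam w'.1 * Lam lam (φ w).1 + (- Lam lam w.1) * Lam lam (φ w').1 = 0 := this
    linear_combination h2
  have hLW : ∀ n, Lam lam (W n).1 = lam ^ (-n) := by
    intro n
    rw [hW, Lam_v]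
  have hLE : ∀ i, (φ (E i)).1.2 = 0 := by
    intro i
    apply Lam_inj lam hl0 tl
    have h2 := hcomm (E i) (W 0)
    rw [hLW, hE, Lam_e, zero_mul, neg_zero, zpow_zero, one_mul] at h2
    exact h2
  have hD : ∀ n m : ℤ, (φ (W n)).1.2 m = (φ (W 0)).1.2 (m - n) := by
    intro n m
    have h2 := hcomm (W n) (W 0)
    rw [hLW, hLW, neg_zero, zpow_zero, one_mul] at h2
    have h3 : (φ (W n)).1.2 - Finsupp.mapDomain (fun a => a + n) (φ (W 0)).1.2 = 0 := by
      apply Lam_inj lam hl0 tl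
      rw [map_sub, Finsupp.linearCombination_mapDomain]
      have e1 : Finsupp.linearCombination ℚ (fun n : ℤ => lam ^ (-n)) (φ (W n)).1.2 =
        Lam lam (φ (W n)).1 := rfl
      have e2 : Finsupp.linearCombination ℚ ((fun n : ℤ => lam ^ (-n)) ∘ (fun a => a + n))
        (φ (W 0)).1.2 = lam ^ (-n) * Finsupp.linearCombination ℚ (fun n : ℤ => lam ^ (-n))
          (φ (W 0)).1.2 := by
        rw [Finsupp.linearCombination_apply, Finsupp.linearCombination_apply, Finsupp.sum,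
          Finsupp.sum, Finset.mul_sum]
        apply Finset.sum_congr rfl
        intro k _
        rw [Function.comp_apply, neg_add, zpow_add₀ hl0, Rat.smul_def, Rat.smul_def]
        ring
      rw [e1, e2, h2, sub_eq_zero]
      rfl
    rw [sub_eq_zero] at h3
    rw [h3]
    have h4 := Finsupp.mapDomain_apply (f := fun a : ℤ => a + n) (add_left_injective n)
      (φ (W 0)).1.2 (m - n)
    rw [← h4]
    congr 1
    ring
  have hrel : ∀ (n : ℤ) (s : ℕ), rho mu s (W n).1 +
      ∑ i ∈ Finset.range (n.toNat + 1), al mu (n - i) * rho mu s (E i).1 = 0 := by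
    intro n s
    rw [hW, rho_v]
    by_cases hs : s < n.toNat + 1
    · rw [Finset.sum_eq_single s]
      · rw [hE, rho_e, Finsupp.single_eq_same, Rat.cast_one, mul_one, neg_add_cancel]
      · intro i _ his
        rw [hE, rho_e, Finsupp.single_apply, if_neg his, Rat.cast_zero, mul_zero]
      · intro h
        exact absurd (Finset.mem_range.mpr hs) h
    · rw [Finset.sum_eq_zero]
      · rw [al, if_neg (by omega), neg_zero, add_zero]
      · intro i hi
        rw [Finset.mem_range] at hi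
        rw [hE, rho_e, Finsupp.single_apply, if_neg (by omega), Rat.cast_zero, mul_zero]
  have htr : ∀ (n : ℤ) (s : ℕ), rho mu s (φ (W n)).1 +
      ∑ i ∈ Finset.range (n.toNat + 1), al mu (n - i) * rho mu s (φ (E i)).1 = 0 := by
    intro n s
    have := transfer3 φ (Finset.range (n.toNat + 1 + 1))
      (fun k => Nat.casesOn k 1 (fun i => al mu (n - i))) (by
      intro k _
      cases k with
      | zero => exact norm_one.le
      | succ i => exact norm_al hm _) (fun k => Nat.casesOn k (W n) (fun i => E i)) (by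
      intro s
      rw [Finset.sum_range_succ']
      have h2 := hrel n s
      rw [add_comm] at h2
      rw [← h2]
      congr 1
      exact one_mul _) s
    rw [Finset.sum_range_succ', add_comm] at this
    rw [← this]
    congr 1
    exact (one_mul _).symm
  have hΦ : ∀ (i s : ℕ), rho mu s (φ (E i)).1 = (((φ (E i)).1.1 s : ℚ) : ℚ_[3]) := by
    intro i s
    rw [rho_apply, hLE, map_zero, sub_zero]
  have hco : ∀ (n : ℤ) (s : ℕ), (φ (W 0)).1.2 (s - n) =
      if 0 ≤ n then (φ (E n.toNat)).1.1 s else 0 := by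
    intro n s
    rw [← hD n s]
    have h1 := htr n s
    rw [rho_apply] at h1
    have h2 := mu_coeff mu tm ((φ (W n)).1.1 s)
      (- Finsupp.mapDomain (fun m : ℤ => m - s) (φ (W n)).1.2 +
        ∑ i ∈ Finset.range (n.toNat + 1), Finsupp.single (n - i) ((φ (E i)).1.1 s)) (by
      rw [map_add, map_neg, Finsupp.linearCombination_mapDomain, map_sum, ← h1]
      have e1 : ∑ x ∈ Finset.range (n.toNat + 1), Finsupp.linearCombination ℚ
          (fun n : ℤ => al mu n) (Finsupp.single (n - (x : ℤ)) ((φ (E x)).1.1 s)) =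
          ∑ i ∈ Finset.range (n.toNat + 1), al mu (n - i) * rho mu s (φ (E i)).1 := by
        apply Finset.sum_congr rfl
        intro i _
        rw [Finsupp.linearCombination_single, hΦ, Rat.smul_def, mul_comm]
      rw [e1]
      have e2 : ((fun n : ℤ => al mu n) ∘ fun m : ℤ => m - (s : ℤ)) = fun n : ℤ => al mu (n - s) := rfl
      rw [e2]
      ring)
    rw [Finsupp.add_apply, Finsupp.neg_apply, Finsupp.finsetSum_apply] at h2
    have h3 : (Finsupp.mapDomain (fun m : ℤ => m - (s : ℤ)) (φ (W n)).1.2) 0 = (φ (W n)).1.2 s := by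
      have h4 := Finsupp.mapDomain_apply (f := fun a : ℤ => a - (s : ℤ)) (sub_left_injective)
        (φ (W n)).1.2 s
      rw [← h4]
      congr 1
      ring
    rw [h3] at h2
    have h5 : ∑ i ∈ Finset.range (n.toNat + 1), (Finsupp.single (n - (i : ℤ)) ((φ (E i)).1.1 s)) 0 =
        if 0 ≤ n then (φ (E n.toNat)).1.1 s else 0 := by
      split_ifs with hn
      · rw [Finset.sum_eq_single n.toNat]
        · rw [Int.toNat_of_nonneg hn, sub_self, Finsupp.single_eq_same]
        · intro i _ hi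
          rw [Finsupp.single_apply, if_neg (by omega)]
        · intro h
          exact absurd (Finset.mem_range.mpr (by omega)) h
      · apply Finset.sum_eq_zero
        intro i _
        rw [Finsupp.single_apply, if_neg (by omega)]
    rw [h5] at h2
    linarith
  have hneg : ∀ m : ℤ, 1 ≤ m → (φ (W 0)).1.2 m = 0 := by
    intro m hm1
    have := hco (-m) 0
    rw [if_neg (by omega)] at this
    rw [← this]
    congr 1
    push_cast
    ring
  obtain ⟨L, hL⟩ := (φ (W 0)).1.2.support.bddBelow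
  refine ⟨(-L).toNat + 1, fun k => (φ (W 0)).1.2 (-(k : ℤ)), ?_, ?_, ?_⟩
  · intro k hk
    show (φ (W 0)).1.2 (-(k : ℤ)) = 0
    by_contra hcon
    have := hL (Finsupp.mem_support_iff.mpr hcon)
    omega
  · intro k
    have h1 := hco (k + 1) 1
    rw [if_pos (by omega)] at h1
    have h2 : (φ (W 0)).1.2 (-(k : ℤ)) = (φ (E (k + 1))).1.1 1 := by
      have e : ((k : ℤ) + 1).toNat = k + 1 := by omega
      rw [e] at h1
      rw [← h1]
      congr 1
      push_cast
      ring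
    show ‖(((φ (W 0)).1.2 (-(k : ℤ)) : ℚ) : ℚ_[3])‖ ≤ 1
    rw [h2, ← hΦ]
    have h3 := (φ (E (k + 1))).2.2 1
    rw [sc, if_neg one_ne_zero, one_mul] at h3
    exact h3
  · intro w j
    obtain ⟨K, hK⟩ : ∃ K : ℕ, K = (-L).toNat + 1 := ⟨_, rfl⟩
    rw [← hK]
    have hFK : ∀ k : ℕ, K ≤ k → (φ (W 0)).1.2 (-(k : ℤ)) = 0 := by
      intro k hk
      by_contra hcon
      have := hL (Finsupp.mem_support_iff.mpr hcon)
      omega
    have hEi : ∀ i j : ℕ, rho mu j (φ (E i)).1 = ∑ k ∈ Finset.range K,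
        (((φ (W 0)).1.2 (-(k : ℤ)) : ℚ) : ℚ_[3]) * rho mu (j + k) (E i).1 := by
      intro i j
      rw [hΦ]
      have h1 := hco i j
      rw [if_pos (by omega), Int.toNat_natCast] at h1
      rw [← h1]
      by_cases hij : j ≤ i
      · by_cases hk : i - j < K
        · rw [Finset.sum_eq_single (i - j)]
          · rw [hE, rho_e, Finsupp.single_apply, if_pos (by omega), Rat.cast_one, mul_one]
            congr 2
            omega
          · intro b _ hb
            rw [hE, rho_e, Finsupp.single_apply, if_neg (by omega), Rat.cast_zero, mul_zero]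
          · intro h
            exact absurd (Finset.mem_range.mpr hk) h
        · rw [Finset.sum_eq_zero]
          · have := hFK (i - j) (by omega)
            have e : (j : ℤ) - i = -((i - j : ℕ) : ℤ) := by omega
            rw [e, this, Rat.cast_zero]
          · intro b hb
            rw [Finset.mem_range] at hb
            rw [hE, rho_e, Finsupp.single_apply, if_neg (by omega), Rat.cast_zero, mul_zero]
      · rw [Finset.sum_eq_zero]
        · rw [hneg _ (by omega), Rat.cast_zero]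
        · intro b hb
          rw [hE, rho_e, Finsupp.single_apply, if_neg (by omega), Rat.cast_zero, mul_zero]
    have hWn : ∀ (n : ℤ) (j : ℕ), rho mu j (φ (W n)).1 = ∑ k ∈ Finset.range K,
        (((φ (W 0)).1.2 (-(k : ℤ)) : ℚ) : ℚ_[3]) * rho mu (j + k) (W n).1 := by
      intro n j
      have h1 := htr n j
      have h2 : ∀ k, rho mu (j + k) (W n).1 =
        - ∑ i ∈ Finset.range (n.toNat + 1), al mu (n - i) * rho mu (j + k) (E i).1 := fun k =>
          eq_neg_of_add_eq_zero_left (hrel n (j + k))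
      have h3 := eq_neg_of_add_eq_zero_left h1
      rw [h3]
      have h4 : ∑ k ∈ Finset.range K,
        (((φ (W 0)).1.2 (-(k : ℤ)) : ℚ) : ℚ_[3]) * rho mu (j + k) (W n).1 =
          - ∑ k ∈ Finset.range K, ∑ i ∈ Finset.range (n.toNat + 1),
          al mu (n - i) * ((((φ (W 0)).1.2 (-(k : ℤ)) : ℚ) : ℚ_[3]) * rho mu (j + k) (E i).1) := by
        rw [← Finset.sum_neg_distrib]
        apply Finset.sum_congr rfl
        intro k _
        rw [h2 k, mul_neg, Finset.mul_sum]
        congr 1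
        apply Finset.sum_congr rfl
        intro i _
        ring
      rw [h4, Finset.sum_comm]
      congr 1
      apply Finset.sum_congr rfl
      intro i _
      rw [hEi i j, Finset.mul_sum]
    obtain ⟨Lh, hLh⟩ : ∃ Lh : GG lam mu →+ ℚ_[3], ∀ w, Lh w = rho mu j (φ w).1 :=
      ⟨(rho mu j).toAddMonoidHom.comp ((GG lam mu).subtype.comp φ), fun w => rfl⟩
    obtain ⟨Rh, hRh⟩ : ∃ Rh : GG lam mu →+ ℚ_[3], ∀ w, Rh w = ∑ k ∈ Finset.range K,
        (((φ (W 0)).1.2 (-(k : ℤ)) : ℚ) : ℚ_[3]) * rho mu (j + k) w.1 := by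
      refine ⟨AddMonoidHom.mk' (fun w => ∑ k ∈ Finset.range K,
        (((φ (W 0)).1.2 (-(k : ℤ)) : ℚ) : ℚ_[3]) * rho mu (j + k) w.1) ?_, fun w => rfl⟩
      intro a b
      rw [← Finset.sum_add_distrib]
      apply Finset.sum_congr rfl
      intro k _
      rw [AddSubgroup.coe_add, map_add]
      ring
    have := ext_hom Lh Rh E hE W hW (fun i => by rw [hLh, hRh, hEi]) (fun n => by rw [hLh, hRh, hWn]) w
    rw [hLh, hRh] at this
    exact this


lemma hopfian (hl : ‖lam‖ = 1) (hm : ‖mu‖ = 1) (tl : Transcendental ℚ lam)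
    (tm : Transcendental ℚ mu) (φ : GG lam mu →+ GG lam mu) (hφ : Function.Surjective φ) :
    Function.Injective φ := by
  have hl0 : lam ≠ 0 := by
    rintro rfl
    rw [norm_zero] at hl
    exact zero_ne_one hl
  obtain ⟨K, F, hK, hFn, hF⟩ := exists_F hl hm tl tm φ
  have hF0 : F 0 ≠ 0 := by
    intro h0
    obtain ⟨w, hw⟩ := hφ ⟨_, third_mem⟩
    have h1 := hF w 0
    rw [hw, rho_e, Finsupp.single_eq_same] at h1
    have h2 : ‖∑ k ∈ Finset.range K, (F k : ℚ_[3]) * rho mu (0 + k) w.1‖ ≤ 1 := by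
      apply IsUltrametricDist.norm_sum_le_of_forall_le_of_nonneg zero_le_one
      intro k _
      rw [norm_mul]
      by_cases hk : k = 0
      · rw [hk, h0, Rat.cast_zero, norm_zero, zero_mul]
        exact zero_le_one
      · have h3 := w.2.2 (0 + k)
        rw [sc, if_neg (by omega), one_mul] at h3
        exact mul_le_one₀ (hFn k) (norm_nonneg _) h3
    rw [← h1] at h2
    have h4 : ‖(((1 / 3 : ℚ)) : ℚ_[3])‖ = 3 := by
      push_cast
      rw [norm_div, norm_one, norm_three, one_div, inv_inv]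
    rw [h4] at h2
    norm_num at h2
  rw [injective_iff_map_eq_zero]
  intro w hw
  -- the 2-adic part
  have h1 : Lam lam w.1 = 0 := by
    obtain ⟨w', hw'⟩ := hφ ⟨_, v_mem hl hm 0⟩
    have := transfer2 φ Finset.univ ![Lam lam w'.1, - Lam lam w.1] (by
      intro k _
      fin_cases k
      · exact w'.2.1
      · show ‖- Lam lam w.1‖ ≤ 1
        rw [norm_neg]
        exact w.2.1) ![w, w'] (by
      rw [Fin.sum_univ_two]
      show Lam lam w'.1 * Lam lam w.1 + (- Lam lam w.1) * Lam lam w'.1 = 0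
      ring)
    rw [Fin.sum_univ_two] at this
    have h2 : Lam lam w'.1 * Lam lam (φ w).1 + (- Lam lam w.1) * Lam lam (φ w').1 = 0 := this
    rw [hw, hw', Lam_v] at h2
    have h3 : Lam lam ((0 : GG lam mu) : V) = 0 := by
      rw [AddSubgroup.coe_zero, map_zero]
    rw [h3] at h2
    simpa using h2
  have h2 : w.1.2 = 0 := Lam_inj lam hl0 tl _ h1
  have h3 : ∀ j, rho mu j w.1 = ((w.1.1 j : ℚ) : ℚ_[3]) := by
    intro j
    rw [rho_apply, h2, map_zero, sub_zero]
  have h4 : w.1.1 = 0 := by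
    by_contra hne
    obtain ⟨j, hj, hmax⟩ : ∃ j ∈ w.1.1.support, ∀ i ∈ w.1.1.support, i ≤ j := by
      have hne' : w.1.1.support.Nonempty := Finsupp.support_nonempty_iff.mpr hne
      exact ⟨w.1.1.support.max' hne', Finset.max'_mem _ _, fun i hi => Finset.le_max' _ _ hi⟩
    have h5 := hF w j
    have h6 : rho mu j (φ w).1 = 0 := by
      rw [hw, AddSubgroup.coe_zero, map_zero]
    rw [h6] at h5
    have hK1 : 0 < K := by
      by_contra hcon
      exact hF0 (hK 0 (by omega))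
    rw [Finset.sum_eq_single 0] at h5
    · rw [add_zero, h3 j] at h5
      rcases mul_eq_zero.mp h5.symm with h | h
      · exact hF0 (by exact_mod_cast h)
      · exact (Finsupp.mem_support_iff.mp hj) (by exact_mod_cast h)
    · intro b _ hb
      rw [h3]
      have : w.1.1 (j + b) = 0 := by
        by_contra hcon
        have := hmax _ (Finsupp.mem_support_iff.mpr hcon)
        omega
      rw [this, Rat.cast_zero, mul_zero]
    · intro h
      exact absurd (Finset.mem_range.mpr hK1) h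
  apply Subtype.ext
  exact Prod.ext h4 h2

/-- the shift -/
noncomputable def XX : V →ₗ[ℚ] V :=
  LinearMap.prodMap (Finsupp.lcomapDomain (fun i : ℕ => i + 1) (add_left_injective 1))
    (Finsupp.lmapDomain ℚ ℚ (fun n : ℤ => n - 1))

lemma XX_fst (w : V) (i : ℕ) : (XX w).1 i = w.1 (i + 1) := rfl

lemma XX_snd (w : V) : (XX w).2 = Finsupp.mapDomain (fun n : ℤ => n - 1) w.2 := rfl

lemma Lam_XX (hl0 : lam ≠ 0) (w : V) : Lam lam (XX w) = lam * Lam lam w := by
  show Finsupp.linearCombination ℚ (fun n : ℤ => lam ^ (-n))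
    (Finsupp.mapDomain (fun n : ℤ => n - 1) w.2) =
    lam * Finsupp.linearCombination ℚ (fun n : ℤ => lam ^ (-n)) w.2
  rw [Finsupp.linearCombination_mapDomain, Finsupp.linearCombination_apply,
    Finsupp.linearCombination_apply, Finsupp.sum, Finsupp.sum, Finset.mul_sum]
  apply Finset.sum_congr rfl
  intro k _
  rw [Function.comp_apply]
  have : lam ^ (-(k - 1)) = lam * lam ^ (-k) := by
    rw [neg_sub, sub_eq_add_neg, zpow_add₀ hl0, zpow_one]
  rw [this, Rat.smul_def, Rat.smul_def]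
  ring

lemma rho_XX (i : ℕ) (w : V) : rho mu i (XX w) = rho mu (i + 1) w := by
  rw [rho_apply, rho_apply, XX_fst, XX_snd, Finsupp.linearCombination_mapDomain]
  congr 3
  funext n
  rw [Function.comp_apply]
  congr 1
  push_cast
  ring

lemma XX_mem (hl : ‖lam‖ = 1) (w : V) (hw : w ∈ GG lam mu) : XX w ∈ GG lam mu := by
  have hl0 : lam ≠ 0 := by
    rintro rfl
    rw [norm_zero] at hl
    exact zero_ne_one hl
  rw [mem_GG] at hw ⊢
  constructor
  · rw [Lam_XX hl0, norm_mul, hl, one_mul]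
    exact hw.1
  · intro i
    rw [rho_XX, norm_mul]
    have h := hw.2 (i + 1)
    rw [sc, if_neg (by omega), one_mul] at h
    exact mul_le_one₀ (norm_sc i) (norm_nonneg _) h

variable (mu) in
/-- the shift endomorphism -/
noncomputable def XG (hl : ‖lam‖ = 1) : GG lam mu →+ GG lam mu :=
  (XX.toAddMonoidHom.comp (GG lam mu).subtype).codRestrict (GG lam mu)
    (fun w => XX_mem hl w.1 w.2)

lemma XG_apply (hl : ‖lam‖ = 1) (w : GG lam mu) : (XG mu hl w).1 = XX w.1 := rfl

lemma XG_range (hl : ‖lam‖ = 1) (w : GG lam mu) (h : ‖rho mu 0 w.1‖ ≤ 1) :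
    w ∈ (XG mu hl).range := by
  have hl0 : lam ≠ 0 := by
    rintro rfl
    rw [norm_zero] at hl
    exact zero_ne_one hl
  obtain ⟨d, hd⟩ : ∃ d : ℤ →₀ ℚ, d = Finsupp.mapDomain (fun n : ℤ => n + 1) w.1.2 := ⟨_, rfl⟩
  obtain ⟨q, hq⟩ := Padic.rat_dense 3 (Finsupp.linearCombination ℚ (fun n : ℤ => al mu (n - (0 : ℕ))) d)
    one_pos
  obtain ⟨z, hz⟩ : ∃ z : V, z = (Finsupp.mapDomain (fun i : ℕ => i + 1) w.1.1 + Finsupp.single 0 q, d) :=
    ⟨_, rfl⟩
  have hXz : XX z = w.1 := by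
    apply Prod.ext
    · ext i
      rw [XX_fst, hz]
      show ((Finsupp.mapDomain (fun i : ℕ => i + 1) w.1.1 + Finsupp.single 0 q : ℕ →₀ ℚ)) (i + 1) = w.1.1 i
      rw [Finsupp.add_apply, Finsupp.single_apply, if_neg (by omega), add_zero]
      exact Finsupp.mapDomain_apply (add_left_injective 1) w.1.1 i
    · rw [XX_snd, hz, hd]
      show Finsupp.mapDomain (fun n : ℤ => n - 1) (Finsupp.mapDomain (fun n : ℤ => n + 1) w.1.2) = w.1.2
      rw [← Finsupp.mapDomain_comp]
      have : ((fun n : ℤ => n - 1) ∘ fun n : ℤ => n + 1) = id := by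
        funext n
        show n + 1 - 1 = n
        ring
      rw [this, Finsupp.mapDomain_id]
  have hzG : z ∈ GG lam mu := by
    rw [mem_GG]
    constructor
    · have h1 := w.2.1
      rw [← hXz, Lam_XX hl0, norm_mul, hl, one_mul] at h1
      exact h1
    · intro i
      rw [norm_mul]
      apply mul_le_one₀ (norm_sc i) (norm_nonneg _)
      cases i with
      | zero =>
        rw [rho_apply, hz]
        show ‖((((Finsupp.mapDomain (fun i : ℕ => i + 1) w.1.1 + Finsupp.single 0 q : ℕ →₀ ℚ)) 0 : ℚ) : ℚ_[3]) -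
          Finsupp.linearCombination ℚ (fun n : ℤ => al mu (n - (0 : ℕ))) d‖ ≤ 1
        have h0 : (Finsupp.mapDomain (fun i : ℕ => i + 1) w.1.1) 0 = 0 := by
          apply Finsupp.mapDomain_of_notMem_range
          rintro ⟨i, hi⟩
          simp at hi
        rw [Finsupp.add_apply, h0, zero_add, Finsupp.single_eq_same, norm_sub_rev]
        exact hq.le
      | succ i =>
        rw [← rho_XX, hXz]
        cases i with
        | zero => exact h
        | succ i =>
          have h3 := w.2.2 (i + 1)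
          rw [sc, if_neg (by omega), one_mul] at h3
          exact h3
  refine ⟨⟨z, hzG⟩, ?_⟩
  apply Subtype.ext
  rw [XG_apply]
  exact hXz

lemma XG_finite (hl : ‖lam‖ = 1) : Finite (GG lam mu ⧸ (XG mu hl).range) := by
  obtain ⟨r, hr⟩ : ∃ r : GG lam mu →+ ZMod 3, ∀ w, r w =
      PadicInt.toZMod (⟨sc 0 * rho mu 0 w.1, w.2.2 0⟩ : ℤ_[3]) := by
    refine ⟨AddMonoidHom.mk' (fun w =>
      PadicInt.toZMod (⟨sc 0 * rho mu 0 w.1, w.2.2 0⟩ : ℤ_[3])) ?_, fun w => rfl⟩
    intro a b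
    rw [← map_add]
    congr 1
    apply Subtype.ext
    show sc 0 * rho mu 0 (a + b).1 = sc 0 * rho mu 0 a.1 + sc 0 * rho mu 0 b.1
    rw [AddSubgroup.coe_add, map_add, mul_add]
  have hle : r.ker ≤ (XG mu hl).range := by
    intro w hw
    rw [AddMonoidHom.mem_ker, hr] at hw
    apply XG_range hl w
    obtain ⟨t, ht, hte⟩ : ∃ t : ℤ_[3], PadicInt.toZMod t = 0 ∧ (t : ℚ_[3]) = sc 0 * rho mu 0 w.1 :=
      ⟨_, hw, rfl⟩
    have h1 : t ∈ RingHom.ker (PadicInt.toZMod (p := 3)) := ht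
    rw [PadicInt.ker_toZMod, PadicInt.maximalIdeal_eq_span_p, Ideal.mem_span_singleton] at h1
    obtain ⟨c, hc⟩ := h1
    have h2 : sc 0 * rho mu 0 w.1 = 3 * (c : ℚ_[3]) := by
      rw [← hte, hc]
      push_cast
      rfl
    rw [sc, if_pos rfl] at h2
    have h3 : rho mu 0 w.1 = (c : ℚ_[3]) := mul_left_cancel₀ (by norm_num) h2
    rw [h3]
    exact c.2
  have : r.ker.FiniteIndex := inferInstance
  have h2 : (XG mu hl).range.FiniteIndex := AddSubgroup.finiteIndex_of_le hle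
  infer_instance

end Group

/-- There is a torsion-free Hopfian abelian group with an endomorphism of finite cokernel and
nontrivial kernel. -/
theorem result : ∃ (G : Type) (_ : AddCommGroup G),
    (∀ (n : ℤ) (x : G), n ≠ 0 → n • x = 0 → x = 0) ∧
    (∀ φ : G →+ G, Function.Surjective φ → Function.Bijective φ) ∧
    ∃ φ : G →+ G, Finite (G ⧸ φ.range) ∧ φ.ker ≠ ⊥ := by
  obtain ⟨lam, hl, tl⟩ := exists_transc 2
  obtain ⟨mu, hm, tm⟩ := exists_transc 3
  refine ⟨GG lam mu, inferInstance, ?_, ?_, XG mu hl, XG_finite hl, ?_⟩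
  · intro n x hn hx
    apply Subtype.ext
    have h := congrArg (fun t : GG lam mu => t.1) hx
    have h2 : n • x.1 = 0 := h
    rw [← Int.cast_smul_eq_zsmul ℚ] at h2
    exact (smul_eq_zero.mp h2).resolve_left (by exact_mod_cast hn)
  · intro φ hφ
    exact ⟨hopfian hl hm tl tm φ hφ, hφ⟩
  · intro h
    have h1 : (⟨_, e_mem 0⟩ : GG lam mu) ∈ (XG mu hl).ker := by
      rw [AddMonoidHom.mem_ker]
      apply Subtype.ext
      rw [XG_apply]
      apply Prod.ext
      · ext i
        rw [XX_fst]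
        show (Finsupp.single 0 (1 : ℚ)) (i + 1) = 0
        rw [Finsupp.single_apply, if_neg (by omega)]
      · rw [XX_snd]
        exact Finsupp.mapDomain_zero
    rw [h, AddSubgroup.mem_bot] at h1
    have h2 := congrArg (fun t : GG lam mu => t.1.1 0) h1
    have h3 : (Finsupp.single 0 (1 : ℚ)) 0 = (0 : ℚ) := h2
    rw [Finsupp.single_eq_same] at h3
    exact one_ne_zero h3

end Pool.Agent.Results.MP_f7162b_al.HopfianNotCofInj
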